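import Pool.Agent.H454.PG.Chain
import Pool.Agent.H454.PG.Stm4

set_option autoImplicit false

/-!
# The operators act on the real entire functions of order less than two
-/

namespace Pool.Agent.H454.PH

open Complex Filter Topology MeasureTheory Polynomial
open scoped ComplexConjugate
open Pool.Agent.N963.GN
open Pool.Agent.H454.PG

/-- growth with a larger exponent -/
lemma gr2_max {f : ℂ → ℂ} {C ρ σ : ℝ} (hC : 0 ≤ C) (hρσ : ρ ≤ σ) (h : ∀ z : ℂ, ‖f z‖ ≤ Real.exp (C * (1 + ‖z‖) ^ ρ)) (z : ℂ) :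
    ‖f z‖ ≤ Real.exp (C * (1 + ‖z‖) ^ σ) := by
  refine (h z).trans ?_
  rw [Real.exp_le_exp]
  have hz := norm_nonneg z
  exact mul_le_mul_of_nonneg_left (Real.rpow_le_rpow_of_exponent_le (by linarith) hρσ) hC

lemma gr2_add {f g : ℂ → ℂ} (hf : Gr2 f) (hg : Gr2 g) : Gr2 (fun z => f z + g z) := by
  obtain ⟨C, ρ, hC, hρ0, hρ2, hb⟩ := hf
  obtain ⟨C', ρ', hC', hρ0', hρ2', hb'⟩ := hg
  refine ⟨C + C' + 1, max ρ ρ', by positivity, le_max_of_le_left hρ0, max_lt hρ2 hρ2', fun z => ?_⟩
  have h1 := gr2_max hC (le_max_left ρ ρ') hb z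
  have h2 := gr2_max hC' (le_max_right ρ ρ') hb' z
  have hz := norm_nonneg z
  have h3 : 1 ≤ (1 + ‖z‖) ^ (max ρ ρ') := Real.one_le_rpow (by linarith) (le_max_of_le_left hρ0)
  set M := (1 + ‖z‖) ^ (max ρ ρ') with hM
  have h4 : Real.exp (C * M) ≤ Real.exp ((C + C') * M) := by
    rw [Real.exp_le_exp]
    nlinarith
  have h5 : Real.exp (C' * M) ≤ Real.exp ((C + C') * M) := by
    rw [Real.exp_le_exp]
    nlinarith
  have h6 : (2 : ℝ) ≤ Real.exp M := by
    have := Real.add_one_le_exp M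
    linarith
  calc ‖f z + g z‖ ≤ ‖f z‖ + ‖g z‖ := norm_add_le _ _
    _ ≤ 2 * Real.exp ((C + C') * M) := by linarith
    _ ≤ Real.exp M * Real.exp ((C + C') * M) := mul_le_mul_of_nonneg_right h6 (Real.exp_pos _).le
    _ = Real.exp ((C + C' + 1) * M) := by
      rw [← Real.exp_add]
      congr 1
      ring

lemma gr2_mul {f g : ℂ → ℂ} (hf : Gr2 f) (hg : Gr2 g) : Gr2 (fun z => f z * g z) := by
  obtain ⟨C, ρ, hC, hρ0, hρ2, hb⟩ := hf
  obtain ⟨C', ρ', hC', hρ0', hρ2', hb'⟩ := hg
  refine ⟨C + C', max ρ ρ', by positivity, le_max_of_le_left hρ0, max_lt hρ2 hρ2', fun z => ?_⟩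
  have h1 := gr2_max hC (le_max_left ρ ρ') hb z
  have h2 := gr2_max hC' (le_max_right ρ ρ') hb' z
  rw [norm_mul, add_mul, Real.exp_add]
  exact mul_le_mul h1 h2 (norm_nonneg _) (Real.exp_pos _).le

lemma gr2_id : Gr2 (fun z => z) := by
  refine ⟨1, 1, by norm_num, by norm_num, by norm_num, fun z => ?_⟩
  rw [Real.rpow_one, one_mul]
  have := Real.add_one_le_exp (1 + ‖z‖)
  linarith

lemma gr2_const (c : ℂ) : Gr2 (fun _ => c) := by
  refine ⟨‖c‖, 0, norm_nonneg _, le_rfl, by norm_num, fun z => ?_⟩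
  rw [Real.rpow_zero, mul_one]
  have := Real.add_one_le_exp ‖c‖
  linarith

lemma gr2_poly (p : ℝ[X]) : Gr2 (fun z : ℂ => aeval z p) := by
  induction p using Polynomial.induction_on' with
  | add p q hp hq =>
    have h := gr2_add hp hq
    refine cast ?_ h
    congr 1
    funext z
    rw [map_add]
  | monomial n a =>
    have h1 : ∀ n : ℕ, Gr2 (fun z : ℂ => z ^ n) := by
      intro n
      induction n with
      | zero => exact cast (by congr 1) (gr2_const 1)
      | succ n ih => exact cast (by congr 1) (gr2_mul ih gr2_id)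
    have h := gr2_mul (gr2_const (a : ℂ)) (h1 n)
    refine cast ?_ h
    congr 1
    funext z
    rw [Polynomial.aeval_monomial]
    rfl

lemma gr2_deriv {G : ℂ → ℂ} (hd : Differentiable ℂ G) (hG : Gr2 G) : Gr2 (deriv G) := by
  have h1 := gr2_step hd hG 1 0
  have h2 := gr2_mul (gr2_mul (gr2_const (-1)) gr2_id) hG
  have h := gr2_add h1 h2
  refine cast ?_ h
  congr 1
  funext z
  push_cast
  ring

/-- the operators act -/
theorem acts (A : Tasks) (u1 : S4_U1) (u2 : S4_U2) {T : Operator} (hT : T.Admissible) {G : ℂ → ℂ} (hG : RealEntire G) :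
    ∃ X : ℂ → ℂ, RealEntire X ∧ T.Maps G X ∧ ∀ Y : ℂ → ℂ, T.Maps G Y → Y = X := by
  obtain ⟨hd, hs, hgr⟩ := hG
  have hps : ∀ p : ℝ[X], ∀ z : ℂ, aeval (conj z) p = conj (aeval z p) := by
    intro p z
    exact Polynomial.aeval_conj p z
  cases T with
  | mul p =>
    refine ⟨fun z => aeval z p * G z, ⟨(Polynomial.differentiable_aeval _).mul hd, fun z => ?_, gr2_mul (gr2_poly p) hgr⟩,
      fun z => rfl, fun Y hY => ?_⟩
    · show aeval (conj z) p * G (conj z) = _
      rw [hps, hs, map_mul]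
    · funext z
      exact (hY z).symm
  | diff φ =>
    obtain ⟨h0, h1, h2, -, -⟩ := Pool.Agent.N525.GN.t_C5 Pool.Agent.N134.GN.c2 φ hT G hd hgr
    refine ⟨fun z => ∑' n, trm φ G z n, ⟨h1, h2 hs, u1 φ hT G hd hgr⟩, fun z => (h0 z).hasSum, fun Y hY => ?_⟩
    funext z
    exact ((hY z).tsum_eq).symm
  | euler b Γ =>
    obtain ⟨l, Γ1, hΓ1, hl⟩ := A.l.l6 Γ hT.1 hT.2
    obtain ⟨h0, h1, h2, -⟩ := lag_list A.f A.l hΓ1 b hd l Γ hl
    have hb : ∀ (l : List ℝ), ∃ C : ℝ, 0 ≤ C ∧ ∀ k : ℕ, ‖(l.map (fun a : ℝ => (k : ℂ) - (a : ℂ))).prod * Γ1 (k : ℂ)‖ ≤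
        C * Real.exp (C * k) := by
      intro l
      induction l with
      | nil =>
        obtain ⟨C, β, hC, h⟩ := A.l.l1 Γ1 hΓ1
        refine ⟨C + |β|, by positivity, fun k => ?_⟩
        rw [List.map_nil, List.prod_nil, one_mul]
        refine (h k).trans ?_
        have h5 : Real.exp (β * k) ≤ Real.exp ((C + |β|) * k) := by
          rw [Real.exp_le_exp]
          have := le_abs_self β
          have hk : (0 : ℝ) ≤ k := Nat.cast_nonneg k
          nlinarith
        exact mul_le_mul (by linarith [abs_nonneg β]) h5 (Real.exp_pos _).le (by positivity)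
      | cons a l ih =>
        obtain ⟨C, hC, h⟩ := ih
        refine ⟨(1 + |a|) * C + (1 + C), by positivity, fun k => ?_⟩
        rw [List.map_cons, List.prod_cons, mul_assoc, norm_mul]
        have hk : (0 : ℝ) ≤ k := Nat.cast_nonneg k
        have h5 : ‖(k : ℂ) - (a : ℂ)‖ ≤ (1 + |a|) * Real.exp k := by
          have h6 : ‖(k : ℂ) - (a : ℂ)‖ ≤ k + |a| := by
            refine (norm_sub_le _ _).trans ?_
            rw [Complex.norm_real, Real.norm_eq_abs, Complex.norm_natCast]
          have h7 := Real.add_one_le_exp (k : ℝ)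
          have h8 := abs_nonneg a
          nlinarith
        have h6 : (1 + |a|) * Real.exp k * (C * Real.exp (C * k)) ≤
            ((1 + |a|) * C + (1 + C)) * Real.exp (((1 + |a|) * C + (1 + C)) * k) := by
          have h9 : Real.exp k * Real.exp (C * k) ≤ Real.exp (((1 + |a|) * C + (1 + C)) * k) := by
            rw [← Real.exp_add, Real.exp_le_exp]
            have h8 := abs_nonneg a
            have h10 : 0 ≤ (1 + |a|) * C * k := by positivity
            nlinarith
          have h8 := abs_nonneg a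
          have h11 : 0 ≤ (1 + |a|) * C := by positivity
          calc (1 + |a|) * Real.exp k * (C * Real.exp (C * k)) = ((1 + |a|) * C) * (Real.exp k * Real.exp (C * k)) := by ring
            _ ≤ ((1 + |a|) * C + (1 + C)) * Real.exp (((1 + |a|) * C + (1 + C)) * k) :=
              mul_le_mul (by linarith) h9 (by positivity) (by positivity)
        exact (mul_le_mul h5 (h k) (norm_nonneg _) (by positivity)).trans h6
    obtain ⟨C, hC, hb⟩ := hb l
    refine ⟨fun z => ∑' n, lt Γ b G z n, ⟨h1, h2 hs, u2 Γ C b (fun k => ?_) G hd hgr⟩, fun z => (h0 z).hasSum, fun Y hY => ?_⟩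
    · rw [hl]
      exact hb k
    · funext z
      exact ((hY z).tsum_eq).symm
  | first p q =>
    refine ⟨fun z => aeval z p * deriv G z + aeval z q * G z,
      ⟨((Polynomial.differentiable_aeval _).mul hd.deriv).add ((Polynomial.differentiable_aeval _).mul hd), fun z => ?_,
        gr2_add (gr2_mul (gr2_poly p) (gr2_deriv hd hgr)) (gr2_mul (gr2_poly q) hgr)⟩,
      fun z => rfl, fun Y hY => ?_⟩
    · show aeval (conj z) p * deriv G (conj z) + aeval (conj z) q * G (conj z) = _
      rw [hps, hps, hs, sym_deriv hd hs, map_add, map_mul, map_mul]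
    · funext z
      exact (hY z).symm

end Pool.Agent.H454.PH
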