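import Pool.Agent.H454.PG.Stm4
import Pool.Graph.R_pool_sql_team_seeded_63374d34.N525.GN.C5
import Pool.Graph.R_pool_sql_team_seeded_63374d34.N134.GN.C2

set_option autoImplicit false

/-!
# Project PG (helper454), U1: growth of `φ(D) G`
-/

namespace Pool.Agent.H351.PG

open Complex Filter Topology MeasureTheory Polynomial
open Pool.Agent.N963.GN Pool.Agent.N525.GN

/-- the majorant is summable -/
theorem maj (D ρ : ℝ) (hD : 0 ≤ D) (hρ2 : ρ < 2) :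
    Summable (fun n : ℕ => Real.exp (-(n : ℝ) + D * (n : ℝ) ^ (ρ / 2))) := by
  have h1 : Tendsto (fun n : ℕ => D * (n : ℝ) ^ (-(1 - ρ / 2))) atTop (𝓝 0) := by
    have h := ((tendsto_rpow_neg_atTop (show 0 < 1 - ρ / 2 by linarith)).comp
      tendsto_natCast_atTop_atTop).const_mul D
    rw [mul_zero] at h
    exact h
  have h2 : ∀ᶠ n : ℕ in atTop, D * (n : ℝ) ^ (-(1 - ρ / 2)) ≤ 1 / 2 :=
    (h1.eventually (gt_mem_nhds (show (0 : ℝ) < 1 / 2 by norm_num))).mono fun _ h => le_of_lt h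
  refine Summable.of_norm_bounded_eventually_nat (g := fun n => (Real.exp (-(1 / 2))) ^ n)
    (summable_geometric_of_lt_one (Real.exp_pos _).le
      (by rw [Real.exp_lt_one_iff]; norm_num)) ?_
  filter_upwards [h2, eventually_ge_atTop 1] with n hn hn1
  have hn0 : (0 : ℝ) < n := by exact_mod_cast hn1
  rw [Real.norm_of_nonneg (Real.exp_pos _).le, ← Real.exp_nat_mul]
  refine Real.exp_le_exp.2 ?_
  have e1 : (n : ℝ) ^ (ρ / 2) = n * (n : ℝ) ^ (-(1 - ρ / 2)) := by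
    have h3 : (n : ℝ) * (n : ℝ) ^ (-(1 - ρ / 2)) = (n : ℝ) ^ (1 : ℝ) * (n : ℝ) ^ (-(1 - ρ / 2)) := by
      rw [Real.rpow_one]
    rw [h3, ← Real.rpow_add hn0]
    congr 1
    ring
  rw [e1]
  have h4 : n * (D * (n : ℝ) ^ (-(1 - ρ / 2))) ≤ n * (1 / 2) := mul_le_mul_of_nonneg_left hn hn0.le
  linarith

theorem add_rpow_le' (a b ρ : ℝ) (ha : 0 ≤ a) (hb : 0 ≤ b) (hρ0 : 0 ≤ ρ) (hρ2 : ρ < 2) :
    (a + b) ^ ρ ≤ 4 * (a ^ ρ + b ^ ρ) := by
  have h2 : (2:ℝ) ^ ρ ≤ 4 := by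
    calc (2:ℝ) ^ ρ ≤ (2:ℝ) ^ (2:ℝ) := Real.rpow_le_rpow_of_exponent_le (by norm_num) hρ2.le
      _ = 4 := by norm_num
  have ha' : 0 ≤ a ^ ρ := Real.rpow_nonneg ha ρ
  have hb' : 0 ≤ b ^ ρ := Real.rpow_nonneg hb ρ
  rcases le_total a b with h | h
  · calc (a + b) ^ ρ ≤ (2 * b) ^ ρ := Real.rpow_le_rpow (by positivity) (by linarith) hρ0
      _ = 2 ^ ρ * b ^ ρ := Real.mul_rpow (by norm_num) hb
      _ ≤ 4 * b ^ ρ := mul_le_mul_of_nonneg_right h2 hb'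
      _ ≤ _ := by linarith
  · calc (a + b) ^ ρ ≤ (2 * a) ^ ρ := Real.rpow_le_rpow (by positivity) (by linarith) hρ0
      _ = 2 ^ ρ * a ^ ρ := Real.mul_rpow (by norm_num) ha
      _ ≤ 4 * a ^ ρ := mul_le_mul_of_nonneg_right h2 ha'
      _ ≤ _ := by linarith

/-- the bound for one term -/
theorem term {G : ℂ → ℂ} (hG : Differentiable ℂ G) {C ρ M : ℝ} (hC : 0 ≤ C) (hρ0 : 0 ≤ ρ)
    (hρ2 : ρ < 2) (hM : 0 ≤ M) (hb : ∀ z : ℂ, ‖G z‖ ≤ Real.exp (C * (1 + ‖z‖) ^ ρ)) (z : ℂ)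
    (n : ℕ) :
    C5.qb M n * ‖iteratedDeriv n G z‖ ≤ M * Real.exp (4 * C * (1 + ‖z‖) ^ ρ) *
      Real.exp (-(n : ℝ) + 4 * C * Real.exp (M + 1) ^ ρ * (n : ℝ) ^ (ρ / 2)) := by
  have hz1 : 0 ≤ (1 + ‖z‖) ^ ρ := by positivity
  rcases Nat.eq_zero_or_pos n with rfl | hn
  · rw [iteratedDeriv_zero]
    unfold C5.qb
    simp only [pow_zero, mul_one, div_one, Nat.cast_zero, neg_zero, zero_add]
    have h1 : 1 ≤ Real.exp (4 * C * Real.exp (M + 1) ^ ρ * (0 : ℝ) ^ (ρ / 2)) :=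
      Real.one_le_exp (by positivity)
    have h2 : ‖G z‖ ≤ Real.exp (4 * C * (1 + ‖z‖) ^ ρ) := by
      refine (hb z).trans (Real.exp_le_exp.2 ?_)
      nlinarith [mul_nonneg hC hz1]
    calc M * ‖G z‖ ≤ M * Real.exp (4 * C * (1 + ‖z‖) ^ ρ) := mul_le_mul_of_nonneg_left h2 hM
      _ ≤ _ := le_mul_of_one_le_right (by positivity) h1
  · have hn0 : (0 : ℝ) < n := by exact_mod_cast hn
    set B : ℝ := Real.exp (M + 1) with hB
    have hB0 : 0 < B := Real.exp_pos _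
    have hsq : 0 < Real.sqrt n := Real.sqrt_pos.2 hn0
    have hR : 0 < B * Real.sqrt n := by positivity
    have hs : ∀ w ∈ Metric.sphere z (B * Real.sqrt n), ‖G w‖ ≤
        Real.exp (4 * C * (1 + ‖z‖) ^ ρ) * Real.exp (4 * C * B ^ ρ * (n : ℝ) ^ (ρ / 2)) := by
      intro w hw
      rw [mem_sphere_iff_norm] at hw
      have h1 : 1 + ‖w‖ ≤ (1 + ‖z‖) + B * Real.sqrt n := by
        have : ‖w‖ ≤ ‖w - z‖ + ‖z‖ := by simpa using norm_add_le (w - z) z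
        linarith
      refine (hb w).trans ?_
      rw [← Real.exp_add]
      refine Real.exp_le_exp.2 ?_
      have h2 : (1 + ‖w‖) ^ ρ ≤ 4 * ((1 + ‖z‖) ^ ρ + (B * Real.sqrt n) ^ ρ) :=
        (Real.rpow_le_rpow (by positivity) h1 hρ0).trans
          (add_rpow_le' _ _ ρ (by positivity) hR.le hρ0 hρ2)
      have h3 : (B * Real.sqrt n) ^ ρ = B ^ ρ * (n : ℝ) ^ (ρ / 2) := by
        rw [Real.mul_rpow hB0.le hsq.le, Real.sqrt_eq_rpow, ← Real.rpow_mul hn0.le]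
        congr 2
        ring
      rw [h3] at h2
      have h4 := mul_le_mul_of_nonneg_left h2 hC
      calc C * (1 + ‖w‖) ^ ρ ≤ _ := h4
        _ = _ := by ring
    have h := Complex.norm_iteratedDeriv_le_of_forall_mem_sphere_norm_le n hR
      (hG.diffContOnCl (s := Metric.ball z _)) hs
    have hfac : (n.factorial : ℝ) ≤ (n : ℝ) ^ n := by exact_mod_cast Nat.factorial_le_pow n
    set E1 : ℝ := Real.exp (4 * C * (1 + ‖z‖) ^ ρ) with hE1
    set E2 : ℝ := Real.exp (4 * C * B ^ ρ * (n : ℝ) ^ (ρ / 2)) with hE2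
    have hE10 : 0 < E1 := Real.exp_pos _
    have hE20 : 0 < E2 := Real.exp_pos _
    have hBn : Real.exp M ^ n / B ^ n = Real.exp (-(n : ℝ)) := by
      rw [← div_pow, hB, ← Real.exp_sub, ← Real.exp_nat_mul]
      congr 1
      ring
    have hsn : Real.sqrt n ^ n * Real.sqrt n ^ n = (n : ℝ) ^ n := by
      rw [← mul_pow, Real.mul_self_sqrt hn0.le]
    rw [Real.exp_add, ← hE2, ← hBn]
    have h5 : C5.qb M n * ‖iteratedDeriv n G z‖ ≤
        (M * Real.exp M ^ n / (Real.sqrt n) ^ n) *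
          ((n : ℝ) ^ n * (E1 * E2) / (B * Real.sqrt n) ^ n) := by
      unfold C5.qb
      refine mul_le_mul_of_nonneg_left (h.trans ?_) (by positivity)
      gcongr
    refine h5.trans (le_of_eq ?_)
    rw [mul_pow, ← hsn]
    field_simp

/-- U1 -/
theorem t_U1 : Pool.Agent.H454.PG.S4_U1 := by
  intro φ hφ G hG hgr
  obtain ⟨C, ρ, hC, hρ0, hρ2, hb⟩ := hgr
  obtain ⟨hne, Q, hQr, hQl⟩ := hφ
  obtain ⟨M, hM, N0, hN0⟩ := Pool.Agent.N134.GN.c2 φ Q hne hQr hQl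
  have hQd : ∀ N, Differentiable ℂ (fun w : ℂ => aeval w (Q N)) := fun N =>
    Polynomial.differentiable_aeval (Q N)
  have hφd : Differentiable ℂ φ := by
    rw [← differentiableOn_univ]
    exact (tendstoLocallyUniformlyOn_univ.2 hQl).differentiableOn
      (Eventually.of_forall fun N => (hQd N).differentiableOn) isOpen_univ
  have hpt : ∀ s, Tendsto (fun N => aeval s (Q N)) atTop (𝓝 (φ s)) := fun s =>
    (tendstoLocallyUniformlyOn_univ.2 hQl).tendsto_at (Set.mem_univ s)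
  have hφb : ∀ s, ‖φ s‖ ≤ M * Real.exp (M * ‖s‖ ^ 2) := fun s =>
    le_of_tendsto (hpt s).norm (eventually_atTop.2 ⟨N0, fun N hN => hN0 N hN s⟩)
  set D : ℝ := 4 * C * Real.exp (M + 1) ^ ρ with hD
  have hD0 : 0 ≤ D := by positivity
  have hS := maj D ρ hD0 hρ2
  set S : ℝ := ∑' n : ℕ, Real.exp (-(n : ℝ) + D * (n : ℝ) ^ (ρ / 2)) with hSdef
  have hS0 : 0 ≤ S := tsum_nonneg fun n => (Real.exp_pos _).le
  refine ⟨4 * C + M * S, ρ, by positivity, hρ0, hρ2, fun z => ?_⟩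
  have hz1 : 1 ≤ (1 + ‖z‖) ^ ρ := Real.one_le_rpow (by linarith [norm_nonneg z]) hρ0
  have hterm : ∀ n, ‖trm φ G z n‖ ≤ M * Real.exp (4 * C * (1 + ‖z‖) ^ ρ) *
      Real.exp (-(n : ℝ) + D * (n : ℝ) ^ (ρ / 2)) := by
    intro n
    unfold trm
    rw [norm_mul]
    refine (mul_le_mul_of_nonneg_right (C5.qbd hφd hM hφb n) (norm_nonneg _)).trans ?_
    exact term hG hC hρ0 hρ2 hM hb z n
  have h1 := tsum_of_norm_bounded (hS.hasSum.mul_left (M * Real.exp (4 * C * (1 + ‖z‖) ^ ρ))) hterm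
  refine h1.trans ?_
  rw [add_mul, Real.exp_add]
  calc M * Real.exp (4 * C * (1 + ‖z‖) ^ ρ) * S =
      Real.exp (4 * C * (1 + ‖z‖) ^ ρ) * (M * S) := by ring
    _ ≤ Real.exp (4 * C * (1 + ‖z‖) ^ ρ) * Real.exp (M * S * (1 + ‖z‖) ^ ρ) := by
        refine mul_le_mul_of_nonneg_left ?_ (Real.exp_pos _).le
        have h2 : M * S ≤ M * S * (1 + ‖z‖) ^ ρ := le_mul_of_one_le_right (by positivity) hz1
        have h3 := Real.add_one_le_exp (M * S * (1 + ‖z‖) ^ ρ)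
        linarith

end Pool.Agent.H351.PG
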