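import Pool.Agent.H454.PG.Stm4

/-!
# PG4-U2: growth of `Γ((z - b) D) G` (project PG of helper454)
-/

set_option autoImplicit false

namespace Pool.Agent.H44.PG

open Complex Filter Topology
open Pool.Agent.N963.GN Pool.Agent.H454.PG

theorem t_U2 : S4_U2 := by
  intro Γ C b hΓ G hG hGr
  obtain ⟨C1, ρ, hC1, hρ0, hρ2, hb⟩ := hGr
  have hC0 : 0 ≤ C := by
    have h := hΓ 0
    simp only [Nat.cast_zero, mul_zero, Real.exp_zero, mul_one] at h
    exact (norm_nonneg _).trans h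
  set E : ℝ := Real.exp C with hE
  have hE0 : 0 < E := Real.exp_pos _
  set D : ℝ := 2 + |b| + 2 * E * (1 + |b|) with hD
  have hb0 : 0 ≤ |b| := abs_nonneg b
  have hD0 : 0 ≤ D := by positivity
  refine ⟨2 * C + C1 * D ^ ρ, ρ, by positivity, hρ0, hρ2, fun z => ?_⟩
  set x : ℝ := ‖z - (b : ℂ)‖ with hx
  have hx0 : 0 ≤ x := norm_nonneg _
  set R : ℝ := 2 * E * x + 1 with hR
  have hR0 : 0 < R := by positivity
  set M : ℝ := Real.exp (C1 * (1 + (|b| + R)) ^ ρ) with hM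
  have hM0 : 0 < M := Real.exp_pos _
  have hbn : ‖(b : ℂ)‖ = |b| := by rw [Complex.norm_real, Real.norm_eq_abs]
  have hder : ∀ k : ℕ, ‖iteratedDeriv k G (b : ℂ)‖ ≤ k.factorial * M / R ^ k := by
    intro k
    refine Complex.norm_iteratedDeriv_le_of_forall_mem_sphere_norm_le k hR0 hG.diffContOnCl
      fun w hw => ?_
    refine (hb w).trans ?_
    apply Real.exp_le_exp.mpr
    apply mul_le_mul_of_nonneg_left _ hC1
    apply Real.rpow_le_rpow (by positivity) _ hρ0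
    have h1 : ‖w‖ ≤ ‖w - (b : ℂ)‖ + ‖(b : ℂ)‖ := by
      have := norm_add_le (w - (b : ℂ)) (b : ℂ)
      rwa [sub_add_cancel] at this
    rw [mem_sphere_iff_norm.mp hw, hbn] at h1
    linarith
  have hterm : ∀ k : ℕ, ‖lt Γ b G z k‖ ≤ C * M * (1 / 2) ^ k := by
    intro k
    have hf : (0 : ℝ) < k.factorial := by exact_mod_cast k.factorial_pos
    have hRk : 0 < R ^ k := pow_pos hR0 k
    unfold lt
    rw [norm_mul, norm_mul, norm_div, norm_pow, Complex.norm_natCast, ← hx]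
    have h1 : ‖iteratedDeriv k G (b : ℂ)‖ / (k.factorial : ℝ) ≤ M / R ^ k := by
      rw [div_le_iff₀ hf]
      refine (hder k).trans (le_of_eq ?_)
      ring
    have h2 : Real.exp (C * k) = E ^ k := by
      rw [hE, ← Real.exp_nat_mul, mul_comm]
    have h3 : E * x / R ≤ 1 / 2 := by
      rw [div_le_iff₀ hR0, hR]
      linarith
    calc ‖Γ (k : ℂ)‖ * (‖iteratedDeriv k G (b : ℂ)‖ / (k.factorial : ℝ)) * x ^ k
        ≤ (C * E ^ k) * (M / R ^ k) * x ^ k := by
          apply mul_le_mul_of_nonneg_right _ (pow_nonneg hx0 k)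
          apply mul_le_mul _ h1 (by positivity) (by positivity)
          rw [← h2]
          exact hΓ k
      _ = C * M * (E * x / R) ^ k := by
          rw [div_pow, mul_pow]
          ring
      _ ≤ C * M * (1 / 2) ^ k := by
          apply mul_le_mul_of_nonneg_left _ (mul_nonneg hC0 hM0.le)
          exact pow_le_pow_left₀ (by positivity) h3 k
  have hsum : ‖∑' k, lt Γ b G z k‖ ≤ C * M * 2 :=
    tsum_of_norm_bounded (hasSum_geometric_two.mul_left (C * M)) hterm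
  refine hsum.trans ?_
  have hz1 : 1 ≤ 1 + ‖z‖ := by linarith [norm_nonneg z]
  have hpow1 : 1 ≤ (1 + ‖z‖) ^ ρ := Real.one_le_rpow hz1 hρ0
  have hDz : 1 + (|b| + R) ≤ D * (1 + ‖z‖) := by
    have h1 : x ≤ ‖z‖ + |b| := by
      rw [hx, ← hbn]
      exact norm_sub_le _ _
    have h2 : 2 * E * x ≤ 2 * E * (‖z‖ + |b|) := mul_le_mul_of_nonneg_left h1 (by positivity)
    have h3 : 0 ≤ E * |b| * ‖z‖ := by positivity
    have h4 : 0 ≤ |b| * ‖z‖ := by positivity
    have h5 := norm_nonneg z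
    rw [hR, hD]
    nlinarith
  have hpow : (1 + (|b| + R)) ^ ρ ≤ D ^ ρ * (1 + ‖z‖) ^ ρ := by
    rw [← Real.mul_rpow hD0 (by linarith)]
    exact Real.rpow_le_rpow (by positivity) hDz hρ0
  have h2C : 2 * C ≤ Real.exp (2 * C * (1 + ‖z‖) ^ ρ) := by
    have h1 : 2 * C ≤ 2 * C * (1 + ‖z‖) ^ ρ := le_mul_of_one_le_right (by positivity) hpow1
    have h2 := Real.add_one_le_exp (2 * C * (1 + ‖z‖) ^ ρ)
    linarith
  have hMle : M ≤ Real.exp (C1 * D ^ ρ * (1 + ‖z‖) ^ ρ) := by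
    apply Real.exp_le_exp.mpr
    rw [mul_assoc]
    exact mul_le_mul_of_nonneg_left hpow hC1
  calc C * M * 2 = 2 * C * M := by ring
    _ ≤ Real.exp (2 * C * (1 + ‖z‖) ^ ρ) * Real.exp (C1 * D ^ ρ * (1 + ‖z‖) ^ ρ) :=
        mul_le_mul h2C hMle hM0.le (Real.exp_pos _).le
    _ = Real.exp ((2 * C + C1 * D ^ ρ) * (1 + ‖z‖) ^ ρ) := by
        rw [← Real.exp_add]
        congr 1
        ring

end Pool.Agent.H44.PG
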