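import Pool.Agent.H454.PH.Def
import Pool.Agent.H454.PH.Gr
import Pool.Agent.H454.PG.All
import Pool.Agent.H454.PH.U1
import Pool.Agent.H454.PH.U2

set_option autoImplicit false

/-!
# The theorems, with hypotheses on `G` only

The lemmas of the projects PF, PG, PH were formalised by the seats 870, 230, 389, 142, 81, 21, 376, 627, 903, 157, 356, 996 (PF), 92, 658,
457, 400, 997, 769, 178, 353, 166, 350, 295, 279, 588, 48, 664, 596, 903 (PG), 351, 44 (PH); plan and assembly: 454. The plan for `φ(D)` and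
most of its lemmas are those of the library project `N963/GN` (run 63374d34).
-/

namespace Pool.Agent.H454.PH

open Complex Filter Topology MeasureTheory Polynomial
open scoped ComplexConjugate
open Pool.Agent.N963.GN
open Pool.Agent.H454.PF (Full)

theorem u1 : Pool.Agent.H454.PG.S4_U1 := Pool.Agent.H351.PG.t_U1

theorem u2 : Pool.Agent.H454.PG.S4_U2 := Pool.Agent.H44.PG.t_U2

/-- the same operator -/
def tr : Operator → Pool.Agent.H454.PG.Operator
  | .mul p => .mul p
  | .diff φ => .diff φ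
  | .euler b Γ => .euler b Γ
  | .first p q => .first p q

lemma tr_adm {T : Operator} : (tr T).Admissible ↔ T.Admissible := by
  cases T <;> exact Iff.rfl

lemma tr_maps {T : Operator} {G X : ℂ → ℂ} : (tr T).Maps G X ↔ T.Maps G X := by
  cases T <;> exact Iff.rfl

lemma tr_elem {T : Operator} : (tr T).Elementary ↔ T.Elementary := by
  cases T <;> exact Iff.rfl

lemma tr_deg (T : Operator) : (tr T).degree = T.degree := by
  cases T <;> rfl

/-- the operators act on the real entire functions of order less than two -/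
theorem acts' {T : Operator} (hT : T.Admissible) {G : ℂ → ℂ} (hG : RealEntire G) :
    ∃ X : ℂ → ℂ, RealEntire X ∧ T.Maps G X ∧ ∀ Y : ℂ → ℂ, T.Maps G Y → Y = X := by
  obtain ⟨X, h1, h2, h3⟩ := acts Pool.Agent.H454.PG.tasks u1 u2 (tr_adm.2 hT) hG
  exact ⟨X, h1, tr_maps.1 h2, fun Y hY => h3 Y (tr_maps.2 hY)⟩

lemma chain_tr (L : List Operator) : ∀ X G : ℂ → ℂ, RealEntire G → Chain L X G →
    Pool.Agent.H454.PG.Chain (L.map tr) X G ∧ RealEntire X := by
  induction L with
  | nil =>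
    intro X G hG hc
    have e : G = X := hc
    refine ⟨hc, ?_⟩
    rw [← e]
    exact hG
  | cons T L ih =>
    intro X G hG hc
    obtain ⟨hT, H, hTH, hc'⟩ := hc
    obtain ⟨h1, hH⟩ := ih H G hG hc'
    obtain ⟨X', h2, h3, h4⟩ := acts' hT hH
    refine ⟨⟨tr_adm.2 hT, H, hH, tr_maps.2 hTH, h1⟩, ?_⟩
    rw [h4 X hTH]
    exact h2

lemma tr_sum (L : List Operator) : ((L.map tr).map Pool.Agent.H454.PG.Operator.degree).sum = (L.map Operator.degree).sum := by
  rw [List.map_map]
  congr 1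
  refine List.map_congr_left (fun T _ => ?_)
  exact tr_deg T

/-- passing to hypotheses on `G` only -/
theorem rigid_of {X : ℂ → ℂ} (h : Pool.Agent.H454.PG.Rigid X) : Rigid X := by
  refine ⟨h.real, h.solution_diff, h.solution_euler, h.solution_first, fun L G hG hc hfin => ?_⟩
  obtain ⟨h1, -⟩ := chain_tr L X G hG hc
  obtain ⟨h2, h3⟩ := h.rigid (L.map tr) G h1 hfin
  refine ⟨fun T hT => ?_, ?_⟩
  · exact tr_elem.1 (h2 (tr T) (List.mem_map_of_mem hT))
  · rw [tr_sum] at h3
    exact h3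

theorem real_iff {X : ℂ → ℂ} (hX : RealEntire X) (h : Rigid X) : (∀ z : ℂ, X z = 0 → z.im = 0) ↔ HasRealPreimage X := by
  constructor
  · intro h
    exact ⟨[], X, hX, rfl, h⟩
  · rintro ⟨L, G, hG, hc, hz⟩
    have hfin : {z : ℂ | G z = 0 ∧ z.im ≠ 0}.Finite := by
      have : {z : ℂ | G z = 0 ∧ z.im ≠ 0} = ∅ := by
        ext z
        simp only [Set.mem_ofPred_eq, Set.mem_empty_iff_false, iff_false]
        rintro ⟨h1, h3⟩
        exact h3 (hz z h1)
      rw [this]
      exact Set.finite_empty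
    obtain ⟨-, a, b, P, ha, -, -, hPr, hPG⟩ := h.rigid L G hG hc hfin
    have ha' : (a : ℂ) ≠ 0 := by exact_mod_cast ha.ne'
    intro w hw
    have h1 := hPG ((w - b) / a)
    rw [mul_div_cancel₀ _ ha', sub_add_cancel, hw] at h1
    have h2 : ((w - b) / a).im = 0 := by
      rcases mul_eq_zero.1 h1 with h | h
      · exact hPr _ h
      · exact hz _ h
    rw [Complex.div_ofReal_im, Complex.sub_im, Complex.ofReal_im, sub_zero] at h2
    exact (div_eq_zero_iff.1 h2).resolve_right ha.ne'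

/-- the theorem for a general kernel -/
theorem full {K : ℂ → ℂ} {α : ℝ} (h : Full K α) {X : ℂ → ℂ} (hX : Lt (fun u : ℝ => K (u : ℂ)) = X) :
    Rigid X ∧ ((∀ z : ℂ, X z = 0 → z.im = 0) ↔ HasRealPreimage X) := by
  have h1 := rigid_of (Pool.Agent.H454.PG.full h hX).1
  refine ⟨h1, real_iff ?_ h1⟩
  obtain ⟨C, hC, hb⟩ : Gro X := by
    rw [← hX]
    exact gro_Lt h.kern h.kern.wt (fun u => le_rfl)
  refine ⟨?_, ?_, C, 3 / 2, hC, by norm_num, by norm_num, hb⟩
  · rw [← hX]
    exact diff_Lt h.kern.wt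
  · rw [← hX]
    exact sym_Lt (fun u => h.kern.herm u)

/-- the xi function -/
theorem xi : Rigid Pool.Agent.H454.PF.Xi ∧ (RiemannHypothesis ↔ HasRealPreimage Pool.Agent.H454.PF.Xi) := by
  have h1 := rigid_of Pool.Agent.H454.PG.xi.1
  obtain ⟨hd, hs, hgr2, -⟩ := Pool.Agent.H454.PF.pre_Xi Pool.Agent.H454.PF.t_WG Pool.Agent.H454.PF.t_EX
  exact ⟨h1, Pool.Agent.H454.PF.rh_iff.trans (real_iff ⟨hd, hs, hgr2⟩ h1)⟩

end Pool.Agent.H454.PH
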