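import Mathlib

set_option autoImplicit false

/-!
# Operators on real entire functions: the definitions

The multiplications by real polynomials with real zeros only, the operators `φ(D)` (`φ` in the Laguerre-Pólya class), `Γ((z - b) D)`
(`Γ` in the Laguerre-Pólya class with finitely many zeros in `[0, ∞)`), all the first order operators `p D + q` with real
polynomials `p ≠ 0`, `q`, `deg q ≤ deg p`, and their products. All of them act on the space of the real entire functions of order
less than two.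
-/

open Complex Filter Topology Polynomial
open scoped ComplexConjugate

namespace Pool.Agent.H454.PH

/-- The Laguerre-Pólya class: the functions, not identically zero, which are locally uniform limits of real polynomials
all of whose complex zeros are real. -/
def LaguerrePolya (φ : ℂ → ℂ) : Prop := (∃ z, φ z ≠ 0) ∧ ∃ Q : ℕ → ℝ[X],
  (∀ N (w : ℂ), aeval w (Q N) = 0 → w.im = 0) ∧
    TendstoLocallyUniformly (fun (N : ℕ) (w : ℂ) => aeval w (Q N)) φ atTop

/-- Entire functions of order less than two (growth `exp (C (1 + |z|)^ρ)`, `ρ < 2`) which are real on the real axis. -/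
def RealEntire (G : ℂ → ℂ) : Prop :=
  Differentiable ℂ G ∧ (∀ z, G (conj z) = conj (G z)) ∧
    ∃ C ρ : ℝ, 0 ≤ C ∧ 0 ≤ ρ ∧ ρ < 2 ∧ ∀ z : ℂ, ‖G z‖ ≤ Real.exp (C * (1 + ‖z‖) ^ ρ)

/-- Four kinds of operators, `D = d/dz`: `mul p` is the multiplication by `p`; `diff φ` is `φ(D)`; `euler b Γ` is `Γ((z - b) D)`,
which multiplies the Taylor coefficients at `b` by `Γ(0), Γ(1), Γ(2), …`; `first p q` is `p(z) D + q(z)`. -/
inductive Operator : Type
  | mul (p : ℝ[X])
  | diff (φ : ℂ → ℂ)
  | euler (b : ℝ) (Γ : ℂ → ℂ)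
  | first (p q : ℝ[X])

namespace Operator

/-- The operators which we admit: `mul p` for real polynomials `p ≠ 0` with real zeros only; `diff φ` for `φ` in the Laguerre-Pólya
class; `euler b Γ` for `Γ` in the Laguerre-Pólya class with finitely many zeros of nonnegative real part; `first p q` for
real polynomials `p ≠ 0`, `q` with `deg q ≤ deg p`. -/
def Admissible : Operator → Prop
  | mul p => p ≠ 0 ∧ ∀ w : ℂ, aeval w p = 0 → w.im = 0
  | diff φ => LaguerrePolya φ
  | euler _ Γ => LaguerrePolya Γ ∧ {s : ℂ | Γ s = 0 ∧ 0 ≤ s.re}.Finite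
  | first p q => p ≠ 0 ∧ q.natDegree ≤ p.natDegree

/-- `T.Maps G X` is `T G = X` (with absolutely convergent series, for all complex `z`). -/
def Maps : Operator → (ℂ → ℂ) → (ℂ → ℂ) → Prop
  | mul p, G, X => ∀ z : ℂ, aeval z p * G z = X z
  | diff φ, G, X => ∀ z : ℂ, HasSum (fun n : ℕ => iteratedDeriv n φ 0 / (n.factorial : ℂ) * iteratedDeriv n G z) (X z)
  | euler b Γ, G, X => ∀ z : ℂ,
      HasSum (fun n : ℕ => Γ n * (iteratedDeriv n G (b : ℂ) / (n.factorial : ℂ)) * (z - b) ^ n) (X z)
  | first p q, G, X => ∀ z : ℂ, aeval z p * deriv G z + aeval z q * G z = X z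

/-- The elementary operators: the multiplications, `c exp(β D)` (`G(z) ↦ c G(z + β)`) and `c exp(β (z - b) D)`
(`G(b + w) ↦ c G(b + exp(β) w)`). -/
def Elementary : Operator → Prop
  | mul _ => True
  | diff φ => ∃ c β : ℝ, ∀ s : ℂ, φ s = c * cexp (β * s)
  | euler _ Γ => ∃ c β : ℝ, ∀ s : ℂ, Γ s = c * cexp (β * s)
  | first _ _ => False

/-- The degree of the polynomial for a multiplication, zero for all other operators. -/
noncomputable def degree : Operator → ℕ
  | mul p => p.natDegree
  | _ => 0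

end Operator

/-- `Chain [T₁, …, T_n] X G` means `X = T₁ T₂ ⋯ T_n G`, with admissible operators `T_i`. -/
def Chain : List Operator → (ℂ → ℂ) → (ℂ → ℂ) → Prop
  | [], X, G => G = X
  | T :: L, X, G => T.Admissible ∧ ∃ H : ℂ → ℂ, T.Maps H X ∧ Chain L H G

/-- `P(z) G(z) = X(a z + b)` with real `a > 0`, `b` and a real polynomial `P` of degree `n` with real zeros only. -/
def Image (X G : ℂ → ℂ) (n : ℕ) : Prop := ∃ (a b : ℝ) (P : ℝ[X]), 0 < a ∧ P ≠ 0 ∧ P.natDegree = n ∧
  (∀ w : ℂ, aeval w P = 0 → w.im = 0) ∧ ∀ z : ℂ, aeval z P * G z = X (a * z + b)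

/-- `X` is real on the real axis, and:
* `solution`: there are real entire functions `G` of order less than two with `φ(D) G = X` for all `φ` in the Laguerre-Pólya class; with
  `Γ((z - b) D) G = X` for all real `b` and all `Γ` with real values `Γ(k) ≠ 0`, `1/|Γ(k)| ≤ C exp(C k)`, `k = 0, 1, …`; with
  `(z - b) G' + (c + β (z - b)) G = X` for all real `b`, `β` and `c > 0`;
* `rigid`: if `X = T₁ ⋯ T_n G`, where `G` is real entire of order less than two and has only finitely many non-real zeros, then all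
  `T_i` are elementary, and `P(z) G(z) = X(a z + b)`, `a > 0`, where `P` has only real zeros and its degree is the sum of the
  degrees of the multiplications among the `T_i`. -/
structure Rigid (X : ℂ → ℂ) : Prop where
  real : ∀ x : ℝ, (X x).im = 0
  solution_diff : ∀ φ : ℂ → ℂ, LaguerrePolya φ → ∃ G : ℂ → ℂ, RealEntire G ∧ (Operator.diff φ).Maps G X
  solution_euler : ∀ (b C : ℝ) (Γ : ℂ → ℂ),
    (∀ k : ℕ, (Γ (k : ℂ)).im = 0 ∧ Γ (k : ℂ) ≠ 0 ∧ 1 ≤ C * Real.exp (C * k) * ‖Γ (k : ℂ)‖) →
    ∃ G : ℂ → ℂ, RealEntire G ∧ (Operator.euler b Γ).Maps G X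
  solution_first : ∀ b c β : ℝ, 0 < c → ∃ G : ℂ → ℂ, RealEntire G ∧ (Operator.first (Polynomial.X - Polynomial.C b)
    (Polynomial.C c + Polynomial.C β * (Polynomial.X - Polynomial.C b))).Maps G X
  rigid : ∀ (L : List Operator) (G : ℂ → ℂ), RealEntire G → Chain L X G → {z : ℂ | G z = 0 ∧ z.im ≠ 0}.Finite →
    (∀ T ∈ L, T.Elementary) ∧ Image X G (L.map Operator.degree).sum

/-- `X = T₁ ⋯ T_n G` for some admissible operators and some real entire `G` of order less than two with real zeros only. -/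
def HasRealPreimage (X : ℂ → ℂ) : Prop := ∃ (L : List Operator) (G : ℂ → ℂ), RealEntire G ∧ Chain L X G ∧
  ∀ z : ℂ, G z = 0 → z.im = 0

end Pool.Agent.H454.PH
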